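import Mathlib
import Pool.Agent.H262.FK5

set_option autoImplicit false

/-!
Bounded linear operators into Lipschitz free `p`-spaces.
-/

namespace Pool.Agent.Y167.FS

open Pool.Agent.H262.FreeP Pool.Agent.H262.FP Filter Topology

/-- `(X, NX)` is an `r`-normed space over `𝕜`. -/
structure IsRNormed (𝕜 : Type) [RCLike 𝕜] (r : ℝ) (X : Type) [AddCommGroup X] [Module 𝕜 X]
    (NX : X → ℝ) : Prop where
  nonneg : ∀ x, 0 ≤ NX x
  eq_zero_iff : ∀ x, NX x = 0 ↔ x = 0
  smul : ∀ (c : 𝕜) (x : X), NX (c • x) = ‖c‖ * NX x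
  add_le : ∀ x y, NX (x + y) ^ r ≤ NX x ^ r + NX y ^ r

/-- `T` is a compact operator from `(X, NX)` to `(F, N)`. -/
def IsCompactOp {𝕜 : Type} [RCLike 𝕜] {X F : Type} [AddCommGroup X] [Module 𝕜 X] [AddCommGroup F]
    [Module 𝕜 F] (NX : X → ℝ) (N : F → ℝ) (T : X →ₗ[𝕜] F) : Prop :=
  ∀ x : ℕ → X, (∃ B : ℝ, ∀ n, NX (x n) ≤ B) → ∃ φ : ℕ → ℕ, StrictMono φ ∧ ∃ z : F,
    Tendsto (fun n => N (T (x (φ n)) - z)) atTop (𝓝 0)

variable {𝕜 : Type} [RCLike 𝕜] {p : ℝ}

/-- a sequence in a `p`-Banach space has a convergent or a separated subsequence -/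
theorem conv_or_sep (hp : 0 < p) {F : Type} [AddCommGroup F] [Module 𝕜 F] {N : F → ℝ}
    (hF : IsPBanach 𝕜 p F N) (y : ℕ → F) :
    (∃ φ : ℕ → ℕ, StrictMono φ ∧ ∃ z, Tendsto (fun n => N (y (φ n) - z)) atTop (𝓝 0)) ∨
    ∃ η > 0, ∃ φ : ℕ → ℕ, StrictMono φ ∧ ∀ n m, n < m → η ≤ N (y (φ n) - y (φ m)) := by
  classical
  have hPF := isPFK_rpow hF
  have h0 := hF.nonneg
  have hneg : ∀ v, N (-v) = N v := fun v => by
    have := hF.smul (-1) v
    rwa [neg_one_smul, norm_neg, norm_one, one_mul] at this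
  have hzero : N 0 = 0 := (hF.eq_zero_iff 0).2 rfl
  let _ : PseudoMetricSpace F :=
    { dist := fun x y => N (x - y) ^ p
      dist_self := fun x => by rw [sub_self, hzero, Real.zero_rpow hp.ne']
      dist_comm := fun x y => by rw [← neg_sub, hneg]
      dist_triangle := fun x y z => by
        have := hF.add_le (x - y) (y - z)
        rwa [sub_add_sub_cancel] at this }
  have hdist : ∀ x y : F, dist x y = N (x - y) ^ p := fun _ _ => rfl
  have _ : CompleteSpace F := by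
    refine Metric.complete_of_cauchySeq_tendsto fun u hu => ?_
    obtain ⟨z, hz⟩ := hF.complete u (fun ε hε => by
      obtain ⟨K, hK⟩ := Metric.cauchySeq_iff.1 hu (ε ^ p) (Real.rpow_pos_of_pos hε _)
      refine ⟨K, fun m hm n hn => ?_⟩
      have h1 := hK m hm n hn
      rw [hdist] at h1
      exact (Real.rpow_lt_rpow_iff (h0 _) hε.le hp).1 h1)
    refine ⟨z, tendsto_iff_dist_tendsto_zero.2 ?_⟩
    have h1 := hz.rpow_const (p := p) (Or.inr hp.le)
    rw [Real.zero_rpow hp.ne'] at h1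
    exact h1
  by_cases hT : TotallyBounded (Set.range y)
  · left
    have hK : IsCompact (closure (Set.range y)) :=
      isCompact_iff_totallyBounded_isComplete.2 ⟨hT.closure, isClosed_closure.isComplete⟩
    obtain ⟨z, -, φ, hφ, hz⟩ := hK.tendsto_subseq (x := y) fun n => subset_closure ⟨n, rfl⟩
    refine ⟨φ, hφ, z, ?_⟩
    have h1 := tendsto_iff_dist_tendsto_zero.1 hz
    have h2 := h1.rpow_const (p := p⁻¹) (Or.inr (inv_nonneg.2 hp.le))
    rw [Real.zero_rpow (inv_ne_zero hp.ne')] at h2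
    refine h2.congr fun n => ?_
    rw [Function.comp_apply, hdist, ← Real.rpow_mul (h0 _), mul_inv_cancel₀ hp.ne', Real.rpow_one]
  · right
    rw [Metric.totallyBounded_iff] at hT
    push Not at hT
    obtain ⟨ε, hε, hT⟩ := hT
    obtain ⟨φ, -, hφ⟩ := exists_seq_of_forall_finset_exists (fun _ : ℕ => True)
      (fun a b => a < b ∧ ε ≤ dist (y b) (y a)) (fun s _ => by
        by_contra hcon
        push Not at hcon
        refine hT (((Finset.range (s.sup id + 1)).image y : Finset F) : Set F)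
          (Finset.finite_toSet _) ?_
        rintro _ ⟨n, rfl⟩
        simp only [Set.mem_iUnion, Metric.mem_ball, Finset.coe_image, Set.mem_image,
          Finset.mem_coe, Finset.mem_range]
        by_cases hn : n < s.sup id + 1
        · exact ⟨y n, ⟨n, hn, rfl⟩, by rw [dist_self]; exact hε⟩
        · obtain ⟨m, hm, hmn⟩ := hcon n trivial
          have hms : m ≤ s.sup id := Finset.le_sup (f := id) hm
          exact ⟨y m, ⟨m, by omega, rfl⟩, hmn (by omega)⟩)
    refine ⟨ε ^ p⁻¹, Real.rpow_pos_of_pos hε _, φ, fun a b hab => (hφ a b hab).1, fun n m hnm => ?_⟩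
    have h1 := (hφ n m hnm).2
    rw [dist_comm, hdist] at h1
    have h2 := Real.rpow_le_rpow hε.le h1 (inv_nonneg.2 hp.le)
    rwa [← Real.rpow_mul (h0 _), mul_inv_cancel₀ hp.ne', Real.rpow_one] at h2

theorem IsRNormed.zero {r : ℝ} {X : Type} [AddCommGroup X] [Module 𝕜 X] {NX : X → ℝ}
    (hX : IsRNormed 𝕜 r X NX) : NX 0 = 0 := (hX.eq_zero_iff 0).2 rfl

theorem IsRNormed.sum_le {r : ℝ} (hr : 0 < r) {X : Type} [AddCommGroup X] [Module 𝕜 X]
    {NX : X → ℝ} (hX : IsRNormed 𝕜 r X NX) {ι : Type} (s : Finset ι) (f : ι → X) :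
    NX (∑ i ∈ s, f i) ^ r ≤ ∑ i ∈ s, NX (f i) ^ r := by
  classical
  induction s using Finset.induction_on with
  | empty => simp [hX.zero, Real.zero_rpow hr.ne']
  | insert a s ha ih =>
    rw [Finset.sum_insert ha, Finset.sum_insert ha]
    exact (hX.add_le _ _).trans (by linarith)

variable {M : Type} [MetricSpace M] {o : M} {F : Type} [AddCommGroup F] [Module 𝕜 F]
  {N : F → ℝ} {δ : M → F}

/-- bounded operators from `r`-normed spaces, `r > p`, are compact -/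
theorem compact_of_gt (hp : 0 < p) (hp1 : p < 1) (hF : IsFreePSpace 𝕜 p M o F N δ) {r : ℝ}
    (hpr : p < r) {X : Type} [AddCommGroup X] [Module 𝕜 X] {NX : X → ℝ}
    (hX : IsRNormed 𝕜 r X NX) (T : X →ₗ[𝕜] F) {C : ℝ} (hT : ∀ x, N (T x) ≤ C * NX x) :
    IsCompactOp NX N T := by
  intro x hx
  obtain ⟨B, hB⟩ := hx
  have h0 := hF.pbanach.nonneg
  have hr : 0 < r := hp.trans hpr
  rcases conv_or_sep hp hF.pbanach (fun n => T (x n)) with h | ⟨η, hη, φ, hφ, hsep⟩
  · exact h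
  exfalso
  have hB0 : 0 ≤ B := (hX.nonneg _).trans (hB 0)
  have hT' : ∀ z, N (T z) ≤ |C| * NX z := fun z =>
    (hT z).trans (mul_le_mul_of_nonneg_right (le_abs_self C) (hX.nonneg _))
  obtain ⟨ψ, hψ, c, hc, hlow⟩ := transferK hp hp1 hF (y := fun n => T (x (φ n))) (B := |C| * B)
    (fun n => (hT' _).trans (mul_le_mul_of_nonneg_left (hB _) (abs_nonneg C))) hη hsep
  have key : ∀ k : ℕ, c * k ≤ (|C| * B) ^ p * (k:ℝ) ^ (p / r) := by
    intro k
    have h1 := hlow (Finset.range k) (fun _ => 1)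
    simp only [norm_one, Real.one_rpow, Finset.sum_const, Finset.card_range, one_smul,
      nsmul_eq_mul, mul_one] at h1
    refine h1.trans ?_
    rw [← map_sum]
    have h2 := hX.sum_le hr (Finset.range k) (fun i => x (φ (ψ i)))
    have h3 : ∑ i ∈ Finset.range k, NX (x (φ (ψ i))) ^ r ≤ k * B ^ r := by
      have := Finset.sum_le_card_nsmul (Finset.range k) (fun i => NX (x (φ (ψ i))) ^ r) (B ^ r)
        (fun i _ => Real.rpow_le_rpow (hX.nonneg _) (hB _) hr.le)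
      rwa [Finset.card_range, nsmul_eq_mul] at this
    have hkk : (0:ℝ) ≤ k := Nat.cast_nonneg k
    have h4 : NX (∑ i ∈ Finset.range k, x (φ (ψ i))) ≤ (k:ℝ) ^ (1 / r) * B := by
      have h5 := Real.rpow_le_rpow (Real.rpow_nonneg (hX.nonneg _) _) (h2.trans h3)
        (by positivity : (0:ℝ) ≤ 1 / r)
      rw [← Real.rpow_mul (hX.nonneg _), mul_one_div_cancel hr.ne', Real.rpow_one,
        Real.mul_rpow hkk (Real.rpow_nonneg hB0 _), ← Real.rpow_mul hB0, mul_one_div_cancel hr.ne',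
        Real.rpow_one] at h5
      exact h5
    have h6 : N (T (∑ i ∈ Finset.range k, x (φ (ψ i)))) ≤ (|C| * B) * (k:ℝ) ^ (1 / r) := by
      refine (hT' _).trans ((mul_le_mul_of_nonneg_left h4 (abs_nonneg C)).trans (le_of_eq ?_))
      ring
    have h7 := Real.rpow_le_rpow (h0 _) h6 hp.le
    rw [Real.mul_rpow (mul_nonneg (abs_nonneg C) hB0) (Real.rpow_nonneg hkk _),
      ← Real.rpow_mul hkk] at h7
    rwa [show 1 / r * p = p / r by ring] at h7
  have hlt : 0 < 1 - p / r := by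
    rw [sub_pos, div_lt_one hr]; exact hpr
  have hlim : Filter.Tendsto (fun k : ℕ => (k:ℝ) ^ (1 - p / r)) Filter.atTop Filter.atTop :=
    (tendsto_rpow_atTop hlt).comp tendsto_natCast_atTop_atTop
  obtain ⟨k, hk1, hk2⟩ := ((hlim.eventually_gt_atTop ((|C| * B) ^ p / c)).and
    (Filter.eventually_gt_atTop 0)).exists
  have hk0 : (0:ℝ) < k := by exact_mod_cast hk2
  have h1 := key k
  have h2 : (k:ℝ) = (k:ℝ) ^ (p / r) * (k:ℝ) ^ (1 - p / r) := by
    rw [← Real.rpow_add hk0]; simp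
  have h3 : 0 < (k:ℝ) ^ (p / r) := Real.rpow_pos_of_pos hk0 _
  rw [div_lt_iff₀ hc] at hk1
  have h4 : c * k = (k:ℝ) ^ (p / r) * ((k:ℝ) ^ (1 - p / r) * c) := by
    nth_rewrite 1 [h2]; ring
  rw [h4] at h1
  nlinarith

/-- bounded operators from `p`-normed spaces are compact or fix a copy of `ℓ_p` -/
theorem compact_or_fix (hp : 0 < p) (hp1 : p < 1) (hF : IsFreePSpace 𝕜 p M o F N δ)
    {X : Type} [AddCommGroup X] [Module 𝕜 X] {NX : X → ℝ}
    (hX : IsRNormed 𝕜 p X NX) (T : X →ₗ[𝕜] F) {C : ℝ} (hT : ∀ x, N (T x) ≤ C * NX x) :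
    IsCompactOp NX N T ∨ ∃ x : ℕ → X, EquivLp 𝕜 p NX x ∧ EquivLp 𝕜 p N (fun n => T (x n)) := by
  by_cases hc : IsCompactOp NX N T
  · exact Or.inl hc
  right
  unfold IsCompactOp at hc
  push Not at hc
  obtain ⟨x, ⟨B, hB⟩, hx⟩ := hc
  have h0 := hF.pbanach.nonneg
  rcases conv_or_sep hp hF.pbanach (fun n => T (x n)) with ⟨φ, hφ, z, h⟩ | ⟨η, hη, φ, hφ, hsep⟩
  · exact absurd h (hx φ hφ z)
  have hB0 : 0 ≤ B := (hX.nonneg _).trans (hB 0)
  have hT' : ∀ z, N (T z) ≤ |C| * NX z := fun z =>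
    (hT z).trans (mul_le_mul_of_nonneg_right (le_abs_self C) (hX.nonneg _))
  have hL := transferK hp hp1 hF (y := fun n => T (x (φ n))) (B := |C| * B)
    (fun n => (hT' _).trans (mul_le_mul_of_nonneg_left (hB _) (abs_nonneg C))) hη hsep
  obtain ⟨ψ, hψ, c, D, hc, hcD, hE⟩ := equivLp_of_LPK hp hF.pbanach
    (y := fun n => T (x (φ n))) (B := |C| * B)
    (fun n => (hT' _).trans (mul_le_mul_of_nonneg_left (hB _) (abs_nonneg C))) hL
  refine ⟨fun n => x (φ (ψ n)), ?_, c, D, hc, hcD, hE⟩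
  have hC1 : 0 < |C| + 1 := by positivity
  refine ⟨c / (|C| + 1), max B (c / (|C| + 1)), by positivity, le_max_right _ _, fun a => ?_⟩
  have hs0 : 0 ≤ ∑ n ∈ a.support, ‖a n‖ ^ p :=
    Finset.sum_nonneg fun _ _ => Real.rpow_nonneg (norm_nonneg _) _
  have hmap : T (a.sum fun n t => t • x (φ (ψ n))) = a.sum fun n t => t • T (x (φ (ψ n))) := by
    rw [map_finsuppSum]
    exact Finset.sum_congr rfl fun n _ => map_smul _ _ _
  constructor
  · have h1 := (hE a).1
    have h2 := hT' (a.sum fun n t => t • x (φ (ψ n)))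
    rw [hmap] at h2
    rw [div_mul_eq_mul_div, div_le_iff₀ hC1]
    have h3 := h1.trans h2
    nlinarith [hX.nonneg (a.sum fun n t => t • x (φ (ψ n)))]
  · have h1 := hX.sum_le hp a.support (fun n => a n • x (φ (ψ n)))
    have h2 : ∑ n ∈ a.support, NX (a n • x (φ (ψ n))) ^ p ≤ B ^ p * ∑ n ∈ a.support, ‖a n‖ ^ p := by
      rw [Finset.mul_sum]
      refine Finset.sum_le_sum fun n _ => ?_
      rw [hX.smul, Real.mul_rpow (norm_nonneg _) (hX.nonneg _), mul_comm]
      exact mul_le_mul_of_nonneg_right (Real.rpow_le_rpow (hX.nonneg _) (hB _) hp.le)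
        (Real.rpow_nonneg (norm_nonneg _) _)
    have h3 := Real.rpow_le_rpow (Real.rpow_nonneg (hX.nonneg _) _) (h1.trans h2)
      (by positivity : (0:ℝ) ≤ 1 / p)
    rw [← Real.rpow_mul (hX.nonneg _), mul_one_div_cancel hp.ne', Real.rpow_one,
      Real.mul_rpow (Real.rpow_nonneg hB0 _) hs0, ← Real.rpow_mul hB0, mul_one_div_cancel hp.ne',
      Real.rpow_one] at h3
    refine h3.trans ?_
    exact mul_le_mul_of_nonneg_right (le_max_left _ _) (Real.rpow_nonneg hs0 _)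

theorem add_rpow_le' {a b s : ℝ} (ha : 0 ≤ a) (hb : 0 ≤ b) (hs0 : 0 ≤ s) (hs : s ≤ 1) :
    (a + b) ^ s ≤ a ^ s + b ^ s := Real.rpow_add_le_add_rpow ha hb hs0 hs

/-- a `p`-Banach space is `r`-normed for `r ≤ p` -/
theorem rnormed_of_le {F : Type} [AddCommGroup F] [Module 𝕜 F] {N : F → ℝ} (hp : 0 < p) {r : ℝ}
    (hr : 0 < r) (hrp : r ≤ p) (hF : IsPBanach 𝕜 p F N) : IsRNormed 𝕜 r F N where
  nonneg := hF.nonneg
  eq_zero_iff := hF.eq_zero_iff
  smul := hF.smul
  add_le := fun x y => by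
    have h0 := hF.nonneg
    have e : ∀ z, N z ^ r = (N z ^ p) ^ (r / p) := fun z => by
      rw [← Real.rpow_mul (h0 _), mul_div_cancel₀ _ hp.ne']
    rw [e, e, e]
    have h1 := Real.rpow_le_rpow (Real.rpow_nonneg (h0 _) _) (hF.add_le x y)
      (by positivity : (0:ℝ) ≤ r / p)
    exact h1.trans (add_rpow_le' (Real.rpow_nonneg (h0 _) _) (Real.rpow_nonneg (h0 _) _)
      (by positivity) ((div_le_one hp).2 hrp))

/-- a compact operator from a normed space which is bounded below has finite-dimensional domain -/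
theorem finite_of_compact (hp : 0 < p) {F : Type} [AddCommGroup F] [Module 𝕜 F] {N : F → ℝ}
    (hF : IsPBanach 𝕜 p F N) (X : Type) [NormedAddCommGroup X] [NormedSpace 𝕜 X]
    (T : X →ₗ[𝕜] F) {c : ℝ} (hc : 0 < c) (hT : ∀ x, c * ‖x‖ ≤ N (T x))
    (hK : IsCompactOp (fun x : X => ‖x‖) N T) : FiniteDimensional 𝕜 X := by
  by_contra hX
  obtain ⟨R, f, hR, hf1, hf2⟩ := exists_seq_norm_le_one_le_norm_sub (𝕜 := 𝕜) hX
  obtain ⟨φ, hφ, z, hz⟩ := hK f ⟨R, hf1⟩
  have h0 := hF.nonneg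
  have hneg : ∀ v, N (-v) = N v := fun v => by
    have := hF.smul (-1) v
    rwa [neg_one_smul, norm_neg, norm_one, one_mul] at this
  have hz2 := hz.rpow_const (p := p) (Or.inr hp.le)
  rw [Real.zero_rpow hp.ne'] at hz2
  have hz3 := (hz2.add (hz2.comp (tendsto_add_atTop_nat 1)))
  rw [add_zero] at hz3
  have hcp : 0 < c ^ p := Real.rpow_pos_of_pos hc _
  obtain ⟨n, hn⟩ := (hz3.eventually (gt_mem_nhds hcp)).exists
  simp only [Function.comp_apply] at hn
  have h1 := hF.add_le (T (f (φ n)) - z) (-(T (f (φ (n + 1))) - z))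
  rw [hneg, show T (f (φ n)) - z + -(T (f (φ (n + 1))) - z) = T (f (φ n) - f (φ (n + 1))) by
    rw [map_sub]; abel] at h1
  have h2 := hT (f (φ n) - f (φ (n + 1)))
  have h3 : (1:ℝ) ≤ ‖f (φ n) - f (φ (n + 1))‖ :=
    hf2 (fun h => by have := hφ.injective h; omega)
  have h4 : c ≤ N (T (f (φ n) - f (φ (n + 1)))) := by nlinarith
  have h5 := Real.rpow_le_rpow hc.le h4 hp.le
  linarith

end Pool.Agent.Y167.FS
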