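import Mathlib
import Pool.Agent.Y167.FS.Comp

set_option autoImplicit false

/-!
The Lipschitz free `p`-space over `c_0`: bounded operators which are not compact.
-/

namespace Pool.Agent.Y167.FS

open Pool.Agent.H262.FreeP Pool.Agent.H262.FP Filter Topology

/-- the unit vectors of `c_0` -/
noncomputable def ev (n : ℕ) : ZeroAtInftyContinuousMap ℕ ℝ where
  toFun := fun k => if k = n then 1 else 0
  continuous_toFun := continuous_of_discreteTopology
  zero_at_infty' := by
    rw [cocompact_eq_cofinite]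
    refine tendsto_const_nhds.congr' ?_
    have h : ({n} : Set ℕ)ᶜ ∈ cofinite := (Set.finite_singleton n).compl_mem_cofinite
    filter_upwards [h] with k hk
    have hk' : k ≠ n := hk
    simp [hk']

theorem ev_apply (n k : ℕ) : ev n k = if k = n then 1 else 0 := rfl

theorem dist_ev_zero (n : ℕ) : dist (ev n) 0 ≤ 1 := by
  rw [← ZeroAtInftyContinuousMap.dist_toBCF_eq_dist, BoundedContinuousFunction.dist_le zero_le_one]
  intro k
  change dist (ev n k) ((0 : ZeroAtInftyContinuousMap ℕ ℝ) k) ≤ 1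
  rw [ev_apply, ZeroAtInftyContinuousMap.zero_apply, dist_zero_right]
  split_ifs <;> simp

theorem one_le_dist_ev {n m : ℕ} (h : n ≠ m) : 1 ≤ dist (ev n) (ev m) := by
  rw [← ZeroAtInftyContinuousMap.dist_toBCF_eq_dist]
  refine le_trans ?_ (BoundedContinuousFunction.dist_coe_le_dist n)
  change 1 ≤ dist (ev n n) (ev m n)
  rw [ev_apply, ev_apply, if_pos rfl, if_neg h, dist_zero_right]
  simp

/-- the identity of `F_p(c_0)` is not compact -/
theorem id_not_compact {p : ℝ} (hp : 0 < p) {F : Type} [AddCommGroup F] [Module ℝ F] {N : F → ℝ}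
    {δ : ZeroAtInftyContinuousMap ℕ ℝ → F}
    (hF : IsFreePSpace ℝ p (ZeroAtInftyContinuousMap ℕ ℝ) 0 F N δ) :
    ¬ IsCompactOp N N (LinearMap.id : F →ₗ[ℝ] F) := by
  intro hK
  have h0 := hF.pbanach.nonneg
  obtain ⟨φ, hφ, z, hz⟩ := hK (fun n => δ (ev n)) ⟨1, fun n => by
    have h1 := hF.isometric (ev n) 0
    rw [hF.base, sub_zero] at h1
    rw [h1]
    exact dist_ev_zero n⟩
  have hneg : ∀ v, N (-v) = N v := fun v => by
    have := hF.pbanach.smul (-1) v
    rwa [neg_one_smul, norm_neg, norm_one, one_mul] at this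
  have hz2 := hz.rpow_const (p := p) (Or.inr hp.le)
  rw [Real.zero_rpow hp.ne'] at hz2
  have hz3 := (hz2.add (hz2.comp (tendsto_add_atTop_nat 1)))
  rw [add_zero] at hz3
  obtain ⟨n, hn⟩ := (hz3.eventually (gt_mem_nhds zero_lt_one)).exists
  simp only [Function.comp_apply, LinearMap.id_coe, id_eq] at hn
  have h1 := hF.pbanach.add_le (δ (ev (φ n)) - z) (-(δ (ev (φ (n + 1))) - z))
  rw [hneg, show δ (ev (φ n)) - z + -(δ (ev (φ (n + 1))) - z) =
    δ (ev (φ n)) - δ (ev (φ (n + 1))) by abel, hF.isometric] at h1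
  have h2 : (1:ℝ) ≤ dist (ev (φ n)) (ev (φ (n + 1))) :=
    one_le_dist_ev (fun h => by have := hφ.injective h; omega)
  have h3 := Real.rpow_le_rpow zero_le_one h2 hp.le
  rw [Real.one_rpow] at h3
  linarith

end Pool.Agent.Y167.FS
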